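import Mathlib
import Pool.Agent.H20.QL.FINAL
import Pool.Agent.H31.INS.Uql

set_option autoImplicit false

namespace Pool.Agent.Results.MP_af7656_an.CartanDiagonal

section CStar

variable {𝓐 : Type} [CStarAlgebra 𝓐]

/-- the normalisers of `B` in `A` generate the C*-algebra `A` (`A` and `B` are C*-subalgebras of `𝓐`) -/
def Regular (A B : Set 𝓐) : Prop :=
  A ⊆ closure (StarAlgebra.adjoin ℂ {n | n ∈ A ∧ ∀ b ∈ B, n * b * star n ∈ B ∧ star n * b * n ∈ B})

/-- `B` is a Cartan subalgebra of `A` (two C*-subalgebras of `𝓐`): it contains the unit, is maximal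
abelian and regular, and there is a faithful conditional expectation `E` from `A` to `B` -/
structure IsCartan (A B : Set 𝓐) : Prop where
  sub : B ⊆ A
  one : 1 ∈ B
  comm : ∀ b ∈ B, ∀ c ∈ B, b * c = c * b
  maximal : ∀ a ∈ A, (∀ b ∈ B, a * b = b * a) → a ∈ B
  regular : Regular A B
  expectation : ∃ E : 𝓐 → 𝓐, (∀ a ∈ A, E a ∈ B) ∧ (∀ b ∈ B, E b = b) ∧
    (∀ a ∈ A, ∀ a' ∈ A, E (a + a') = E a + E a') ∧ (∀ c : ℂ, ∀ a ∈ A, E (c • a) = c • E a) ∧
    (∀ a ∈ A, ‖E a‖ ≤ ‖a‖) ∧ (∀ a ∈ A, ∃ b ∈ B, E (star a * a) = star b * b) ∧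
    (∀ a ∈ A, ∀ b ∈ B, E (b * a) = b * E a ∧ E (a * b) = E a * b) ∧
    ∀ a ∈ A, E (star a * a) = 0 → a = 0

end CStar

section Operators

/-! `H` stands for `ℓ²(X)`, and `v x` (`c v x` below) for the value of the vector `v` at `x` -/

variable {X H : Type} [MetricSpace X] [NormedAddCommGroup H] [InnerProductSpace ℂ H] [CompleteSpace H]

/-- `T` is the multiplication by the function `f` -/
def IsMul (c : H → X → ℂ) (f : X → ℂ) (T : H →L[ℂ] H) : Prop := ∀ v x, c (T v) x = f x * c v x

/-- `T` is quasi-local: for every `ε > 0` there is `R > 0` with `‖χ_A T χ_B‖ < ε` if `d(A, B) > R`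
(the multiplications by the indicators of `A` and `B` are bounded operators `P`, `Q` of `ℓ²(X)`) -/
def QuasiLocal (c : H → X → ℂ) (T : H →L[ℂ] H) : Prop :=
  ∀ ε : ℝ, 0 < ε → ∃ R : ℝ, 0 < R ∧ ∀ A B : Set X, (∃ R' > R, ∀ a ∈ A, ∀ b ∈ B, R' ≤ dist a b) →
    ∃ P Q : H →L[ℂ] H, IsMul c (A.indicator 1) P ∧ IsMul c (B.indicator 1) Q ∧ ‖P * T * Q‖ < ε

/-- the uniform quasi-local algebra -/
def uq (c : H → X → ℂ) : Set (H →L[ℂ] H) := {T | QuasiLocal c T}

/-- the multiplications by bounded functions -/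
def ellInf (c : H → X → ℂ) : Set (H →L[ℂ] H) :=
  {T | ∃ f : X → ℂ, (∃ M : ℝ, ∀ x, ‖f x‖ ≤ M) ∧ IsMul c f T}

/-- Property A, in the form of Higson and Roe -/
def PropertyA (c : H → X → ℂ) : Prop :=
  ∀ R ε : ℝ, 0 < R → 0 < ε → ∃ S : ℝ, 0 < S ∧ ∃ ξ : X → H, (∀ x, ‖ξ x‖ = 1) ∧
    (∀ x z, c (ξ x) z ≠ 0 → dist x z ≤ S) ∧ ∀ x y, dist x y ≤ R → ‖ξ x - ξ y‖ ≤ ε

/-- if `ℓ^∞(X)` is a Cartan subalgebra of the uniform quasi-local algebra then `X` has Property A; the
regularity of `ℓ^∞(X)` alone is sufficient -/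
def CartanImpliesA (c : H → X → ℂ) : Prop :=
  (IsCartan (uq c) (ellInf c) → PropertyA c) ∧ (Regular (uq c) (ellInf c) → PropertyA c)

end Operators

/-- **If `X` is a metric space of bounded geometry (for every `r > 0` the number of points of the closed
balls of radius `r` is bounded) and `ℓ^∞(X)` is a Cartan subalgebra of the uniform quasi-local algebra
of `X`, then `X` has Property A.** -/
theorem result (X : Type) [MetricSpace X]
    (hX : ∀ r : ℝ, 0 < r → ∃ N : ℕ, ∀ x : X, (Metric.closedBall x r).encard ≤ N) :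
    CartanImpliesA (fun (v : lp (fun _ : X => ℂ) 2) (x : X) => v x) := by
  have key : Regular (uq fun (v : lp (fun _ : X => ℂ) 2) (x : X) => v x)
      (ellInf fun (v : lp (fun _ : X => ℂ) 2) (x : X) => v x) →
      PropertyA (fun (v : lp (fun _ : X => ℂ) 2) (x : X) => v x) := by
    intro h
    have hbg : Pool.Agent.H9.UQL.BG X := by
      intro r
      obtain ⟨N, hN⟩ := hX (max r 1) (lt_of_lt_of_le one_pos (le_max_right _ _))
      refine ⟨N, fun x => ?_⟩
      have h1 : (Metric.closedBall x r).encard ≤ N :=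
        (Set.encard_le_encard (Metric.closedBall_subset_closedBall (le_max_left _ _))).trans (hN x)
      have h2 : (Metric.closedBall x r).Finite :=
        Set.finite_of_encard_le_coe h1
      refine ⟨h2, ?_⟩
      rw [← h2.cast_ncard_eq] at h1
      exact_mod_cast h1
    refine Pool.Agent.H31.INS.Uql.propA_of fun R hR ε hε =>
      Pool.Agent.H20.QL.cartan_final X hbg (Pool.Agent.H31.INS.Uql.conv ?_) R hR ε hε
    have hu : (uq fun (v : lp (fun _ : X => ℂ) 2) (x : X) => v x) =
        {T | Pool.Agent.H31.INS.Uql.QuasiLocal T} := by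
      have hchi : ∀ (A : Set X), IsMul (fun (v : lp (fun _ : X => ℂ) 2) (x : X) => v x)
          (A.indicator 1) (Pool.Agent.H31.INS.Uql.chi A) := by
        intro A v x
        show A.indicator v x = A.indicator 1 x * v x
        by_cases hx : x ∈ A
        · rw [Set.indicator_of_mem hx, Set.indicator_of_mem hx, Pi.one_apply, one_mul]
        · rw [Set.indicator_of_notMem hx, Set.indicator_of_notMem hx, zero_mul]
      have huniq : ∀ (A : Set X) (P : lp (fun _ : X => ℂ) 2 →L[ℂ] lp (fun _ : X => ℂ) 2),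
          IsMul (fun (v : lp (fun _ : X => ℂ) 2) (x : X) => v x) (A.indicator 1) P →
          P = Pool.Agent.H31.INS.Uql.chi A := by
        intro A P hP
        apply ContinuousLinearMap.ext
        intro v
        apply lp.ext
        funext x
        exact (hP v x).trans (hchi A v x).symm
      ext T
      constructor
      · intro hT ε hε
        obtain ⟨R, hR, H⟩ := hT ε hε
        refine ⟨R, hR, fun A B hd => ?_⟩
        obtain ⟨P, Q, hP, hQ, hPQ⟩ := H A B hd
        rwa [huniq A P hP, huniq B Q hQ] at hPQ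
      · intro hT ε hε
        obtain ⟨R, hR, H⟩ := hT ε hε
        exact ⟨R, hR, fun A B hd => ⟨_, _, hchi A, hchi B, H A B hd⟩⟩
    have h' := h
    rw [hu] at h'
    exact h'
  exact ⟨fun h => key h.regular, key⟩

end Pool.Agent.Results.MP_af7656_an.CartanDiagonal
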